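import Pool.Agent.Helper92.Ru.GoalsR

/-! Degrees of generalised Wronskian determinants. -/

set_option autoImplicit false

open MvPolynomial

namespace Pool.Agent.Helper34.Ru

open Pool.Agent.Helper92.Ru

lemma degreeOf_hasse_le {k : Type} [Field k] {σ : Type} (μ : σ →₀ ℕ) (p : MvPolynomial σ k)
    (h : σ) : degreeOf h (hasse μ p) ≤ degreeOf h p := by
  classical
  have hp : hasse μ p = ∑ e ∈ p.support, coeff e p •
      monomial (e - μ) ((∏ i ∈ μ.support, (e i).choose (μ i) : ℕ) : k) := by
    have h1 : p = ∑ e ∈ p.support, coeff e p • basisMonomials σ k e := by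
      conv_lhs => rw [p.as_sum]
      refine Finset.sum_congr rfl fun e _ => ?_
      simp [MvPolynomial.smul_monomial]
    conv_lhs => rw [h1]
    rw [map_sum]
    refine Finset.sum_congr rfl fun e _ => ?_
    rw [map_smul]
    congr 1
    exact Module.Basis.constr_basis _ _ _ _
  rw [hp]
  refine (degreeOf_sum_le _ _ _).trans ?_
  refine Finset.sup_le fun e he => ?_
  rw [MvPolynomial.smul_monomial]
  have h3 : degreeOf h (monomial (e - μ)
      (coeff e p * ((∏ i ∈ μ.support, (e i).choose (μ i) : ℕ) : k))) ≤ (e - μ) h := by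
    rcases eq_or_ne (coeff e p * ((∏ i ∈ μ.support, (e i).choose (μ i) : ℕ) : k)) 0 with h4 | h4
    · rw [h4]
      simp
    · rw [degreeOf_monomial_eq _ _ h4]
  refine h3.trans ?_
  have h5 : (e - μ) h ≤ e h := by
    rw [Finsupp.tsub_apply]
    exact Nat.sub_le _ _
  refine h5.trans ?_
  exact monomial_le_degreeOf h he

/-- **R6** -/
theorem wronDeg : WronDeg := by
  intro k _ σ _ _ s f μ h d hd
  classical
  rw [Matrix.det_apply]
  refine (degreeOf_sum_le _ _ _).trans (Finset.sup_le fun π _ => ?_)
  have h1 : degreeOf h (Equiv.Perm.sign π •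
      ∏ i, Matrix.of (fun i l => hasse (μ i) (f l)) (π i) i) ≤
      degreeOf h (∏ i, Matrix.of (fun i l => hasse (μ i) (f l)) (π i) i) := by
    rcases Int.units_eq_one_or (Equiv.Perm.sign π) with h2 | h2
    · rw [h2, one_smul]
    · rw [h2]
      simp
  refine h1.trans ((degreeOf_prod_le _ _ _).trans ?_)
  refine (Finset.sum_le_card_nsmul _ _ d fun i _ => ?_).trans (by simp)
  exact (degreeOf_hasse_le _ _ _).trans (hd i)

end Pool.Agent.Helper34.Ru
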