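import Pool.Agent.Helper92.Ru.GoalsV

/-! Lower bounds for the local proximities. -/

set_option autoImplicit false

open NumberField MvPolynomial

namespace Pool.Agent.Helper34.Ru

open Pool.Agent.Helper92.Ru

/-- **P11** -/
theorem prLow : PrLow := by
  intro k _ _ L _ _ _ n a x hS
  have hbX : ∀ (f : Fin (n + 1) → ℝ) (j : Fin (n + 1)), f j ≤ ⨆ j, f j := fun f j =>
    le_ciSup (Set.finite_range f).bddAbove j
  constructor
  · intro w
    unfold prI
    set S : L := ∑ j, algebraMap k L (a j) * x j with hSdef
    set X : ℝ := ⨆ j, w (x j) with hX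
    set A : ℝ := ⨆ j, w (algebraMap k L (a j)) with hA
    have hwS : 0 < w S := w.pos_iff.2 hS
    have hX0 : 0 ≤ X := (apply_nonneg w (x 0)).trans (hbX (fun j => w (x j)) 0)
    have h1 : w S ≤ (n + 1) * (X * A) := by
      have h2 : w S ≤ ∑ j, w (algebraMap k L (a j) * x j) := by
        rw [hSdef]
        exact w.1.sum_le _ _
      have h3 : ∑ j, w (algebraMap k L (a j) * x j) ≤ ∑ _j : Fin (n + 1), X * A := by
        refine Finset.sum_le_sum fun j _ => ?_
        rw [map_mul, mul_comm]
        exact mul_le_mul (hbX (fun j => w (x j)) j) (hbX (fun j => w (algebraMap k L (a j))) j)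
          (apply_nonneg w _) hX0
      have h4 : ∑ _j : Fin (n + 1), X * A = (n + 1) * (X * A) := by simp
      linarith
    have hn : (0 : ℝ) < n + 1 := by positivity
    have h5 : ((n : ℝ) + 1)⁻¹ ≤ X * A / w S := by
      rw [le_div_iff₀ hwS, inv_mul_le_iff₀ hn]
      exact h1
    rw [← Real.log_inv]
    exact Real.log_le_log (by positivity) h5
  · intro w
    unfold prF
    set S : L := ∑ j, algebraMap k L (a j) * x j with hSdef
    set X : ℝ := ⨆ j, w (x j) with hX
    set A : ℝ := ⨆ j, w (algebraMap k L (a j)) with hA
    have hwS : 0 < w S := FinitePlace.pos_iff.2 hS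
    have hX0 : 0 ≤ X := (apply_nonneg w (x 0)).trans (hbX (fun j => w (x j)) 0)
    have hA0 : 0 ≤ A := (apply_nonneg w _).trans (hbX (fun j => w (algebraMap k L (a j))) 0)
    have h1 : w S ≤ X * A := by
      have key : ∀ s : Finset (Fin (n + 1)),
          w (∑ j ∈ s, algebraMap k L (a j) * x j) ≤ X * A := by
        intro s
        induction s using Finset.induction_on with
        | empty => simpa using mul_nonneg hX0 hA0
        | insert b s hb ih =>
          rw [Finset.sum_insert hb]
          refine (FinitePlace.add_le w _ _).trans (max_le ?_ ih)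
          rw [map_mul, mul_comm]
          exact mul_le_mul (hbX (fun j => w (x j)) b)
            (hbX (fun j => w (algebraMap k L (a j))) b) (apply_nonneg w _) hX0
      exact key Finset.univ
    apply Real.log_nonneg
    rw [le_div_iff₀ hwS, one_mul]
    exact h1

end Pool.Agent.Helper34.Ru
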